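import Pool.Agent.H338R3.Layer
import Pool.Agent.H338R3.SubTop

/-!
Every free group of rank at least two and at most countable has an infinite boomerang subgroup
whose orbit closure supports no invariant random subgroup.
-/

set_option autoImplicit false

universe u

namespace Pool.Agent.Results.MP_d9b86d_al.BoomerangNoIRS

open Filter MeasureTheory Topology Pool.Agent.H338R3

lemma good_shift {y : F2 → Sg} (hy : Good y) (h : F2) : Good (fun k => y (k * h)) := by
  intro g
  obtain ⟨s, t, hst, hs, ht⟩ := hy (g * h)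
  exact ⟨s, t, hst, by simpa [mul_assoc] using hs, by simpa [mul_assoc] using ht⟩

variable {α : Type u} (a0 a1 : α)

lemma cj_SS (y : F2 → Sg) (i : Bool) (w : FreeGroup α) :
    cj w (SS a0 a1 y i) =
      SS a0 a1 (fun k => y (k * (ac a0 a1 w (bp i)).2.1)) (ac a0 a1 w (bp i)).2.2 := by
  ext v
  rw [mem_cj, conj_SS]

/-- The set of subgroups reading a given label. -/
def AA (s : Sg) : Set (Subgroup (FreeGroup α)) :=
  {K | e0 a0 a1 ^ md s ∈ K} ∩ ⋂ n : Fin (md s), {K | 0 < n.1 → e0 a0 a1 ^ n.1 ∉ K}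

lemma isClopen_AA (s : Sg) : IsClopen (AA a0 a1 s) := by
  refine (isClopen_mem _).inter (isClopen_iInter_of_finite fun n => ?_)
  by_cases hn : 0 < n.1
  · have : {K : Subgroup (FreeGroup α) | 0 < n.1 → e0 a0 a1 ^ n.1 ∉ K} =
        {K | e0 a0 a1 ^ n.1 ∈ K}ᶜ := by
      ext K; simp [hn]
    rw [this]
    exact (isClopen_mem _).compl
  · have : {K : Subgroup (FreeGroup α) | 0 < n.1 → e0 a0 a1 ^ n.1 ∉ K} = Set.univ := by
      ext K; simp [hn]
    rw [this]
    exact isClopen_univ

lemma disjoint_AA : Pairwise (fun s t => Disjoint (AA a0 a1 s) (AA a0 a1 t)) := by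
  have key : ∀ s t : Sg, md s < md t → Disjoint (AA a0 a1 s) (AA a0 a1 t) := by
    intro s t hst
    rw [Set.disjoint_left]
    rintro K ⟨hK, _⟩ ⟨_, hK'⟩
    have := Set.mem_iInter.mp hK' ⟨md s, hst⟩
    exact this (md_pos s) hK
  intro s t hst
  rcases lt_trichotomy (md s) (md t) with h | h | h
  · exact key s t h
  · exact absurd (md_inj h) hst
  · exact (key t s h).symm

lemma SS_false_mem_AA (h : a0 ≠ a1) (y : F2 → Sg) (s : Sg) :
    SS a0 a1 y false ∈ AA a0 a1 s ↔ y 1 = s := by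
  constructor
  · rintro ⟨h1, h2⟩
    have h3 : md (y 1) ∣ md s := (e0_mem_false a0 a1 h y _).mp h1
    rcases lt_or_eq_of_le (Nat.le_of_dvd (md_pos s) h3) with h4 | h4
    · exact absurd ((e0_mem_false a0 a1 h y _).mpr (dvd_refl _))
        (Set.mem_iInter.mp h2 ⟨md (y 1), h4⟩ (md_pos _))
    · exact md_inj h4
  · rintro rfl
    refine ⟨(e0_mem_false a0 a1 h y _).mpr (dvd_refl _), Set.mem_iInter.mpr fun n hn => ?_⟩
    intro hc
    have := Nat.le_of_dvd hn ((e0_mem_false a0 a1 h y _).mp hc)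
    exact absurd n.2 (not_lt.mpr this)

lemma SS_true_notMem_AA (h : a0 ≠ a1) (y : F2 → Sg) (s : Sg) :
    SS a0 a1 y true ∉ AA a0 a1 s := by
  rintro ⟨h1, _⟩
  exact e0_mem_true a0 a1 h y _ (md_pos s) h1

/-- Inversion of signed letters, as an equivalence. -/
def ivE : Sg ≃ Sg where
  toFun := iv
  invFun := iv
  left_inv := iv_iv
  right_inv := iv_iv

lemma no_irs_SS (h : a0 ≠ a1) (y : F2 → Sg) (hy : Good y) :
    ¬ ∃ μ : Measure (Subgroup (FreeGroup α)), IsIRS μ ∧
      μ (orbitClosure (SS a0 a1 y false)) = 1 := by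
  refine no_irs (SS a0 a1 y false) (AA a0 a1) (isClopen_AA a0 a1) (disjoint_AA a0 a1) ivE
    (mv a0 a1) (FreeGroup.of a0) ?_ ?_
  · intro g hg
    rw [cj_SS] at hg ⊢
    set y' : F2 → Sg := fun k => y (k * (ac a0 a1 g (bp false)).2.1) with hy'
    have hgood : Good y' := good_shift hy _
    cases hj : (ac a0 a1 g (bp false)).2.2 with
    | true =>
      rw [hj] at hg
      obtain ⟨s, hs⟩ := Set.mem_iUnion.mp hg
      exact absurd hs (SS_true_notMem_AA a0 a1 h y' s)
    | false =>
      obtain ⟨s, t, hst, hs, ht⟩ := hgood 1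
      have key : ∀ u : Sg, y' (el u * 1) = iv u →
          cj (mv a0 a1 u) (SS a0 a1 y' false) ∈ AA a0 a1 (ivE u) := by
        intro u hu
        rw [cj_SS, ac_mv a0 a1 h]
        refine (SS_false_mem_AA a0 a1 h _ _).mpr ?_
        change _ = iv u
        simpa using hu
      exact ⟨s, t, hst, key s hs, key t ht⟩
  · intro g
    rw [cj_SS]
    set y' : F2 → Sg := fun k => y (k * (ac a0 a1 g (bp false)).2.1) with hy'
    cases hj : (ac a0 a1 g (bp false)).2.2 with
    | false =>
      left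
      exact Set.mem_iUnion.mpr ⟨y' 1, (SS_false_mem_AA a0 a1 h _ _).mpr rfl⟩
    | true =>
      right
      have e1 : (ac a0 a1 (FreeGroup.of a0) (bp true)).2.2 = false := by
        rw [ac_a0]; rfl
      rw [cj_SS, e1]
      exact Set.mem_iUnion.mpr ⟨_, (SS_false_mem_AA a0 a1 h _ _).mpr rfl⟩

lemma infinite_SS (h : a0 ≠ a1) (y : F2 → Sg) : Infinite (SS a0 a1 y false) := by
  classical
  have hinj : Function.Injective
      (fun n : ℕ => (⟨e0 a0 a1 ^ (md (y 1) * n), (e0_mem_false a0 a1 h y _).mpr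
        (dvd_mul_right _ _)⟩ : SS a0 a1 y false)) := by
    intro n n' hn
    have h1 : e0 a0 a1 ^ (md (y 1) * n) = e0 a0 a1 ^ (md (y 1) * n') := congrArg Subtype.val hn
    have h2 := congrArg (fun w => (ac a0 a1 w (bp false)).1 1) h1
    simp only [bp, ac_e0_false a0 a1 h, Pi.add_apply, Pi.single_eq_same] at h2
    have h3 : md (y 1) * n = md (y 1) * n' := by
      have : ((md (y 1) * n : ℕ) : ℤ) = ((md (y 1) * n' : ℕ) : ℤ) := by simpa using h2
      exact_mod_cast this
    exact Nat.eq_of_mul_eq_mul_left (md_pos _) h3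
  exact Infinite.of_injective _ hinj

/-- The even powers of an element move the base point along powers of one element. -/
lemma ac_pow (w : FreeGroup α) : ∃ γ : F2, ∀ n : ℕ,
    (ac a0 a1 (w ^ (2 * n)) (bp false)).2 = (γ ^ n, false) := by
  obtain ⟨hcomm, ⟨ε, hε⟩, _⟩ := ac_nice a0 a1 w
  set P := ac a0 a1 (w ^ 2) (bp false) with hP
  have hlayer : P.2.2 = false := by
    rw [hP, pow_two, map_mul, Equiv.Perm.mul_apply, hε, hε]
    simp [bp]
  refine ⟨P.2.1, fun n => ?_⟩
  induction n with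
  | zero => simp [bp]
  | succ n ih =>
    have h1 : w ^ (2 * (n + 1)) = w ^ 2 * w ^ (2 * n) := by
      rw [← pow_add]; congr 1; ring
    set Q := ac a0 a1 (w ^ (2 * n)) (bp false) with hQ
    have h2 : Q = tr Q.1 Q.2.1 (bp false) := by
      refine Prod.ext ?_ (Prod.ext ?_ ?_)
      · funext k; simp [tr, bp]
      · simp [tr, bp]
      · rw [ih]; simp [tr, bp]
    rw [h1, map_mul, Equiv.Perm.mul_apply, ← hQ, h2, (ac_nice a0 a1 (w ^ 2)).1, ← hP]
    refine Prod.ext ?_ ?_
    · change P.2.1 * Q.2.1 = P.2.1 ^ (n + 1)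
      rw [ih, pow_succ']
    · exact hlayer

lemma boomerang_SS (y : F2 → Sg) (hrec : ∀ (γ : F2) (R N : ℕ), Rec y γ R N) :
    IsBoomerang (SS a0 a1 y false) := by
  intro w
  obtain ⟨γ, hγ⟩ := ac_pow a0 a1 w
  have hch : ∀ k : ℕ, ∃ n, k ≤ n ∧ ∀ g : F2, g.norm ≤ k → y (g * γ ^ n) = y g :=
    fun k => hrec γ k k
  choose n hn hy using hch
  refine ⟨fun k => 2 * n k, ?_, ?_⟩
  · exact tendsto_atTop_mono (fun k => (hn k).trans (by omega)) tendsto_id
  · apply tendsto_sub
    intro v
    -- the lamps changed by `v`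
    have hfin := (ac_nice a0 a1 v).2.2 (bp false)
    obtain ⟨M, hM⟩ : ∃ M : ℕ, ∀ k ∈ {k | (ac a0 a1 v (bp false)).1 k ≠ (bp false).1 k},
        k.norm ≤ M := by
      obtain ⟨M, hM⟩ := (hfin.image FreeGroup.norm).bddAbove
      exact ⟨M, fun k hk => hM ⟨k, hk, rfl⟩⟩
    filter_upwards [eventually_ge_atTop M] with k hk
    rw [cj_SS, hγ (n k), mem_SS, mem_SS]
    refine and_congr_right fun _ => forall_congr' fun g => ?_
    by_cases hg : (ac a0 a1 v (bp false)).1 g = 0
    · simp [hg]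
    · have h1 : g.norm ≤ k := (hM g (by simpa [bp] using hg)).trans hk
      rw [hy k g h1]

/-- For every countable type `α` with at least two elements, that is, for the free group of every
rank `r` with `2 ≤ r ≤ ℵ₀`, there is an infinite boomerang subgroup whose orbit closure supports
no invariant random subgroup. -/
theorem result (α : Type u) [Countable α] [Nontrivial α] :
    ∃ Δ : Subgroup (FreeGroup α), Infinite Δ ∧ IsBoomerang Δ ∧
      ¬ ∃ μ : Measure (Subgroup (FreeGroup α)), IsIRS μ ∧ μ (orbitClosure Δ) = 1 := by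
  obtain ⟨a0, a1, h⟩ := exists_pair_ne α
  obtain ⟨y, hy, hrec⟩ := exists_recurrent
  exact ⟨SS a0 a1 y false, infinite_SS a0 a1 h y, boomerang_SS a0 a1 y hrec,
    no_irs_SS a0 a1 h y hy⟩

end Pool.Agent.Results.MP_d9b86d_al.BoomerangNoIRS
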